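import Mathlib

set_option autoImplicit false

open scoped Pointwise Topology
open Filter

namespace Pool.Agent.Results.MP_99e7cc_gt.EvenDim

/-- Euclidean `n`-space. -/
abbrev E (n : ℕ) := EuclideanSpace ℝ (Fin n)

/-- An origin-symmetric convex body: compact, convex, nonempty interior, `-K = K`. -/
def IsSymBody {n : ℕ} (K : Set (E n)) : Prop :=
  IsCompact K ∧ Convex ℝ K ∧ (interior K).Nonempty ∧ -K = K

/-- A zonotope: a finite Minkowski sum of line segments. -/
def IsZonotope {n : ℕ} (Z : Set (E n)) : Prop :=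
  ∃ (m : ℕ) (a b : Fin m → E n), Z = ∑ i, segment ℝ (a i) (b i)

/-- A zonoid: a nonempty compact set which is a limit of zonotopes in the Hausdorff metric. -/
def IsZonoid {n : ℕ} (Z : Set (E n)) : Prop :=
  IsCompact Z ∧ Z.Nonempty ∧ ∃ Y : ℕ → Set (E n), (∀ k, IsZonotope (Y k)) ∧
    Tendsto (fun k => Metric.hausdorffDist (Y k) Z) atTop (𝓝 0)

/-- `lam K` is the least `t ≥ 1` for which some zonoid `Z` satisfies `K ⊆ Z ⊆ t K`. -/
noncomputable def lam {n : ℕ} (K : Set (E n)) : ℝ :=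
  sInf {t : ℝ | 1 ≤ t ∧ ∃ Z : Set (E n), IsZonoid Z ∧ K ⊆ Z ∧ Z ⊆ t • K}

/-- The cross-polytope, the convex hull of `±e_1, ..., ±e_n`. -/
noncomputable def crossPolytope (n : ℕ) : Set (E n) :=
  convexHull ℝ (Set.range (fun i : Fin n => EuclideanSpace.single i (1 : ℝ)) ∪
    Set.range (fun i : Fin n => -EuclideanSpace.single i (1 : ℝ)))

theorem isCompact_seg {n : ℕ} (a b : E n) : IsCompact (segment ℝ a b) := by
  rw [segment_eq_image]
  exact isCompact_Icc.image (by fun_prop)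

theorem isCompact_zonotope {n : ℕ} {Z : Set (E n)} (h : IsZonotope Z) : IsCompact Z := by
  obtain ⟨m, a, b, rfl⟩ := h
  exact Finset.sum_induction _ IsCompact (fun _ _ h1 h2 => h1.add h2)
    (by simp)
    (fun i _ => isCompact_seg _ _)

theorem nonempty_zonotope {n : ℕ} {Z : Set (E n)} (h : IsZonotope Z) : Z.Nonempty := by
  obtain ⟨m, a, b, rfl⟩ := h
  refine ⟨∑ i, a i, ?_⟩
  rw [Set.mem_fintype_sum]
  exact ⟨a, fun i => left_mem_segment ℝ _ _, rfl⟩

/-- upper bound for the width of a zonotope -/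
theorem width_le {n m : ℕ} (a b : Fin m → E n) (f : E n →L[ℝ] ℝ) {y y' : E n}
    (hy : y ∈ ∑ i, segment ℝ (a i) (b i)) (hy' : y' ∈ ∑ i, segment ℝ (a i) (b i)) :
    f y - f y' ≤ ∑ i, |f (b i - a i)| := by
  rw [Set.mem_fintype_sum] at hy hy'
  obtain ⟨g, hg, rfl⟩ := hy
  obtain ⟨g', hg', rfl⟩ := hy'
  rw [map_sum, map_sum, ← Finset.sum_sub_distrib]
  apply Finset.sum_le_sum
  intro i _
  obtain ⟨s, t, hs, ht, hst, h1⟩ := hg i
  obtain ⟨s', t', hs', ht', hst', h1'⟩ := hg' i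
  have e1 : f (g i) = f (a i) + t * f (b i - a i) := by
    rw [← h1]; simp only [map_add, map_smul, map_sub, smul_eq_mul]
    have : s = 1 - t := by linarith
    rw [this]; ring
  have e2 : f (g' i) = f (a i) + t' * f (b i - a i) := by
    rw [← h1']; simp only [map_add, map_smul, map_sub, smul_eq_mul]
    have : s' = 1 - t' := by linarith
    rw [this]; ring
  rw [e1, e2]
  have : f (a i) + t * f (b i - a i) - (f (a i) + t' * f (b i - a i)) =
      (t - t') * f (b i - a i) := by ring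
  rw [this]
  have h3 : |t - t'| ≤ 1 := by rw [abs_le]; constructor <;> linarith
  calc (t - t') * f (b i - a i) ≤ |(t - t') * f (b i - a i)| := le_abs_self _
    _ = |t - t'| * |f (b i - a i)| := abs_mul _ _
    _ ≤ 1 * |f (b i - a i)| := by gcongr
    _ = |f (b i - a i)| := one_mul _

/-- the width of a zonotope is attained -/
theorem width_eq {n m : ℕ} (a b : Fin m → E n) (f : E n →L[ℝ] ℝ) :
    ∃ y ∈ ∑ i, segment ℝ (a i) (b i), ∃ y' ∈ ∑ i, segment ℝ (a i) (b i),
      f y - f y' = ∑ i, |f (b i - a i)| := by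
  refine ⟨∑ i, (if 0 ≤ f (b i - a i) then b i else a i), ?_,
    ∑ i, (if 0 ≤ f (b i - a i) then a i else b i), ?_, ?_⟩
  · rw [Set.mem_fintype_sum]
    refine ⟨_, fun i => ?_, rfl⟩
    split_ifs
    · exact right_mem_segment ℝ _ _
    · exact left_mem_segment ℝ _ _
  · rw [Set.mem_fintype_sum]
    refine ⟨_, fun i => ?_, rfl⟩
    split_ifs
    · exact left_mem_segment ℝ _ _
    · exact right_mem_segment ℝ _ _
  · rw [map_sum, map_sum, ← Finset.sum_sub_distrib]
    apply Finset.sum_congr rfl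
    intro i _
    split_ifs with h
    · rw [abs_of_nonneg h, map_sub]
    · rw [abs_of_neg (not_le.mp h), map_sub]; ring

/-- The duality certificate: an upper bound for the inner functionals in terms of the outer ones
gives a lower bound for the approximation constant. -/
theorem cert {n : ℕ} {K Z : Set (E n)} {t : ℝ} (hZ : IsZonoid Z) (hKZ : K ⊆ Z)
    (hZK : Z ⊆ t • K) (ht : 0 ≤ t) {ι κ : Type} [Fintype ι] [Fintype κ]
    (f : ι → (E n →L[ℝ] ℝ)) (p : ι → E n) (hp : ∀ i, p i ∈ K) (hp' : ∀ i, -p i ∈ K)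
    (u : κ → (E n →L[ℝ] ℝ)) (h : κ → ℝ) (hu : ∀ k, ∀ x ∈ K, |u k x| ≤ h k)
    (hineq : ∀ v, ∑ i, |f i v| ≤ ∑ k, |u k v|) :
    ∑ i, f i (p i) ≤ t * ∑ k, h k := by
  obtain ⟨hZc, hZn, Y, hY, hlim⟩ := hZ
  set C : ℝ := ∑ i, ‖f i‖ + ∑ k, ‖u k‖ with hC
  have hC0 : 0 ≤ C := by positivity
  apply le_of_forall_pos_le_add
  intro δ hδ
  set ε : ℝ := δ / (C + 1) with hε
  have hε0 : 0 < ε := by positivity
  obtain ⟨k0, hk0⟩ := (hlim.eventually (gt_mem_nhds hε0)).exists
  have hfin : Metric.hausdorffEDist (Y k0) Z ≠ ⊤ :=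
    Metric.hausdorffEDist_ne_top_of_nonempty_of_bounded (nonempty_zonotope (hY k0)) hZn
      (isCompact_zonotope (hY k0)).isBounded hZc.isBounded
  have hto : ∀ y ∈ Y k0, ∃ z ∈ Z, dist y z < ε := fun y hy =>
    Metric.exists_dist_lt_of_hausdorffDist_lt hy hk0 hfin
  have hfrom : ∀ z ∈ Z, ∃ y ∈ Y k0, dist z y < ε := fun z hz => by
    apply Metric.exists_dist_lt_of_hausdorffDist_lt hz
    · rw [Metric.hausdorffDist_comm]; exact hk0
    · rw [Metric.hausdorffEDist_comm]; exact hfin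
  obtain ⟨m, a, b, hYab⟩ := hY k0
  have hdist : ∀ (g : E n →L[ℝ] ℝ) (x y : E n), dist x y < ε → |g x - g y| ≤ ‖g‖ * ε := by
    intro g x y hxy
    rw [← map_sub]
    calc |g (x - y)| = ‖g (x - y)‖ := rfl
      _ ≤ ‖g‖ * ‖x - y‖ := g.le_opNorm _
      _ ≤ ‖g‖ * ε := by
          rw [← dist_eq_norm]
          exact mul_le_mul_of_nonneg_left hxy.le (norm_nonneg _)
  have h1 : ∀ i, 2 * f i (p i) ≤ ∑ j, |f i (b j - a j)| + 2 * (‖f i‖ * ε) := by
    intro i
    obtain ⟨y, hy, hyd⟩ := hfrom _ (hKZ (hp i))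
    obtain ⟨y', hy', hyd'⟩ := hfrom _ (hKZ (hp' i))
    rw [hYab] at hy hy'
    have w := width_le a b (f i) hy hy'
    have d1 := abs_le.mp (hdist (f i) _ _ hyd)
    have d2 := abs_le.mp (hdist (f i) _ _ hyd')
    rw [map_neg] at d2
    linarith [d1.2, d2.1]
  have h2 : ∀ k, ∑ j, |u k (b j - a j)| ≤ 2 * (t * h k) + 2 * (‖u k‖ * ε) := by
    intro k
    obtain ⟨y, hy, y', hy', e⟩ := width_eq a b (u k)
    rw [← hYab] at hy hy'
    obtain ⟨z, hz, hzd⟩ := hto y hy
    obtain ⟨z', hz', hzd'⟩ := hto y' hy'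
    have key : ∀ z ∈ Z, |u k z| ≤ t * h k := by
      intro z hz
      obtain ⟨x, hx, rfl⟩ := Set.mem_smul_set.mp (hZK hz)
      rw [map_smul, smul_eq_mul, abs_mul, abs_of_nonneg ht]
      exact mul_le_mul_of_nonneg_left (hu k x hx) ht
    have k1 := abs_le.mp (key z hz)
    have k2 := abs_le.mp (key z' hz')
    have d1 := abs_le.mp (hdist (u k) _ _ hzd)
    have d2 := abs_le.mp (hdist (u k) _ _ hzd')
    linarith [d1.2, d2.1, k1.2, k2.1]
  have h3 : ∑ i, ∑ j, |f i (b j - a j)| ≤ ∑ k, ∑ j, |u k (b j - a j)| := by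
    rw [Finset.sum_comm, Finset.sum_comm (s := (Finset.univ : Finset κ))]
    exact Finset.sum_le_sum fun j _ => hineq _
  have h4 : ∑ i, 2 * f i (p i) ≤ ∑ i, (∑ j, |f i (b j - a j)| + 2 * (‖f i‖ * ε)) :=
    Finset.sum_le_sum fun i _ => h1 i
  have h5 : ∑ k, ∑ j, |u k (b j - a j)| ≤ ∑ k, (2 * (t * h k) + 2 * (‖u k‖ * ε)) :=
    Finset.sum_le_sum fun k _ => h2 k
  rw [Finset.sum_add_distrib, ← Finset.mul_sum, ← Finset.mul_sum, ← Finset.sum_mul] at h4
  rw [Finset.sum_add_distrib, ← Finset.mul_sum, ← Finset.mul_sum, ← Finset.mul_sum,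
    ← Finset.sum_mul] at h5
  have h6 : C * ε ≤ δ := by
    rw [hε, mul_div_assoc', div_le_iff₀ (by positivity)]
    nlinarith
  have h7 : C * ε = (∑ i, ‖f i‖) * ε + (∑ k, ‖u k‖) * ε := by rw [hC]; ring
  linarith

/-- the real value of a sign -/
def sg (x : ℤˣ) : ℝ := ((x : ℤ) : ℝ)

theorem sg_mul (x y : ℤˣ) : sg (x * y) = sg x * sg y := by simp [sg]
theorem sg_one : sg 1 = 1 := by simp [sg]
theorem sg_neg_one : sg (-1) = -1 := by simp [sg]
theorem sg_neg (x : ℤˣ) : sg (-x) = -sg x := by simp [sg]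
theorem sg_sq (x : ℤˣ) : sg x * sg x = 1 := by
  rcases Int.units_eq_one_or x with h | h <;> simp [h, sg]
theorem abs_sg (x : ℤˣ) : |sg x| = 1 := by
  rcases Int.units_eq_one_or x with h | h <;> simp [h, sg]

theorem exists_sg (a : ℝ) : ∃ x : ℤˣ, sg x * a = |a| := by
  rcases le_or_gt 0 a with h | h
  · exact ⟨1, by rw [sg_one, abs_of_nonneg h, one_mul]⟩
  · exact ⟨-1, by rw [sg_neg_one, abs_of_neg h]; ring⟩

/-- sign vectors -/
abbrev SV (b : ℕ) := Fin b → ℤˣ

/-- the integer sum of a sign vector -/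
def tot {b : ℕ} (ε : SV b) : ℤ := ∑ i, ((ε i : ℤˣ) : ℤ)

theorem tot_cast {b : ℕ} (ε : SV b) : ((tot ε : ℤ) : ℝ) = ∑ i, sg (ε i) := by
  simp [tot, sg]

theorem tot_odd {b : ℕ} (hb : Odd b) (ε : SV b) : Odd (tot ε) := by
  have h : ∀ i, Odd ((ε i : ℤˣ) : ℤ) := by
    intro i
    rcases Int.units_eq_one_or (ε i) with h | h <;> simp [h]
  have h2 : (tot ε) % 2 = ((b : ℤ)) % 2 := by
    unfold tot
    rw [Finset.sum_int_mod]
    have : ∀ i ∈ Finset.univ, ((ε i : ℤˣ) : ℤ) % 2 = 1 := fun i _ => Int.odd_iff.mp (h i)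
    rw [Finset.sum_congr rfl this]
    simp
  rw [Int.odd_iff, h2]
  have : Odd (b : ℤ) := by exact_mod_cast hb
  exact Int.odd_iff.mp this

theorem tot_neg {b : ℕ} (ε : SV b) : tot (-ε) = -tot ε := by
  simp [tot]

theorem tot_swap {b : ℕ} (ε : SV b) (σ : Equiv.Perm (Fin b)) : tot (ε ∘ σ) = tot ε := by
  unfold tot
  exact Equiv.sum_comp σ (fun i => ((ε i : ℤˣ) : ℤ))

/-- splitting off the first sign -/
theorem sum_SV_succ {b : ℕ} (F : SV (b + 1) → ℝ) :
    ∑ ε, F ε = ∑ ε : SV b, (F (Fin.cons 1 ε) + F (Fin.cons (-1) ε)) := by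
  rw [← (Fin.consEquiv (fun _ => ℤˣ)).sum_comp, Fintype.sum_prod_type]
  have : (Finset.univ : Finset ℤˣ) = {1, -1} := rfl
  rw [this, Finset.sum_pair (by decide), ← Finset.sum_add_distrib]
  rfl

theorem sum_SV_neg {b : ℕ} (F : SV b → ℝ) : ∑ ε, F (-ε) = ∑ ε, F ε :=
  Equiv.sum_comp (Equiv.neg (SV b)) F

theorem sum_SV_mul {b : ℕ} (F : SV b → ℝ) (η : SV b) : ∑ ε, F (η * ε) = ∑ ε, F ε :=
  Equiv.sum_comp (Equiv.mulLeft η) F

theorem card_SV (b : ℕ) : (Fintype.card (SV b) : ℝ) = 2 ^ b := by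
  simp [SV]

/-- `H b w = ∑_ε |w + ε_1 + ... + ε_b|` -/
noncomputable def H (b : ℕ) (w : ℝ) : ℝ := ∑ ε : SV b, |w + ∑ i, sg (ε i)|

theorem H_succ (b : ℕ) (w : ℝ) : H (b + 1) w = H b (w + 1) + H b (w - 1) := by
  unfold H
  rw [sum_SV_succ, Finset.sum_add_distrib]
  congr 1
  · apply Finset.sum_congr rfl
    intro ε _
    rw [Fin.sum_univ_succ]
    simp only [Fin.cons_zero, Fin.cons_succ, sg_one]
    ring_nf
  · apply Finset.sum_congr rfl
    intro ε _
    rw [Fin.sum_univ_succ]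
    simp only [Fin.cons_zero, Fin.cons_succ, sg_neg_one]
    ring_nf

theorem H_neg (b : ℕ) (w : ℝ) : H b (-w) = H b w := by
  unfold H
  rw [← sum_SV_neg]
  apply Finset.sum_congr rfl
  intro ε _
  have : -w + ∑ i, sg ((-ε) i) = -(w + ∑ i, sg (ε i)) := by
    simp [sg_neg]; ring
  rw [this, abs_neg]

/-- weighted sums of test functions are symmetric in the coordinates -/
theorem sum_psi_coord {b : ℕ} (ψ : ℤ → ℝ) (i : Fin b) :
    (b : ℝ) * ∑ ε : SV b, ψ (tot ε) * sg (ε i) = ∑ ε : SV b, ψ (tot ε) * tot ε := by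
  have h : ∀ j : Fin b, ∑ ε : SV b, ψ (tot ε) * sg (ε j) = ∑ ε : SV b, ψ (tot ε) * sg (ε i) := by
    intro j
    rw [← Equiv.sum_comp (Equiv.arrowCongr (Equiv.swap i j) (Equiv.refl ℤˣ))]
    apply Finset.sum_congr rfl
    intro ε _
    have e1 : (Equiv.arrowCongr (Equiv.swap i j) (Equiv.refl ℤˣ)) ε = ε ∘ (Equiv.swap i j) := by
      ext k; simp [Equiv.arrowCongr]
    rw [e1, tot_swap]
    simp
  have h2 : ∑ ε : SV b, ψ (tot ε) * (tot ε : ℝ) = ∑ j : Fin b, ∑ ε : SV b, ψ (tot ε) * sg (ε j) := by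
    rw [Finset.sum_comm]
    apply Finset.sum_congr rfl
    intro ε _
    rw [tot_cast, Finset.mul_sum]
  rw [h2, Finset.sum_congr rfl (fun j _ => h j)]
  simp

/-- the basic lower bound -/
theorem G_lower {b : ℕ} (hb : 0 < b) (ψ : ℤ → ℝ) (hψ : ∀ k, |ψ k| ≤ 1) (w : ℝ) (s : Fin b → ℝ) :
    |w| * (∑ ε : SV b, ψ (tot ε)) +
      ((∑ i, |s i|) / b) * (∑ ε : SV b, ψ (tot ε) * tot ε) ≤
      ∑ ε : SV b, |w + ∑ i, sg (ε i) * s i| := by
  obtain ⟨θ, hθ⟩ := exists_sg w
  choose η hη using fun i => exists_sg (s i)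
  have hw : w = sg θ * |w| := by rw [← hθ, ← mul_assoc, sg_sq, one_mul]
  have hs : ∀ i, s i = sg (η i) * |s i| := fun i => by rw [← hη, ← mul_assoc, sg_sq, one_mul]
  have e1 : ∑ ε : SV b, |w + ∑ i, sg (ε i) * s i| = ∑ ε : SV b, abs (|w| + ∑ i, sg (ε i) * |s i|) := by
    rw [← sum_SV_mul _ (fun i => θ * η i)]
    apply Finset.sum_congr rfl
    intro ε _
    have : w + ∑ i, sg (((fun i => θ * η i) * ε) i) * s i =
        sg θ * (|w| + ∑ i, sg (ε i) * |s i|) := by
      rw [mul_add, ← hw, Finset.mul_sum]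
      congr 1
      apply Finset.sum_congr rfl
      intro i _
      rw [Pi.mul_apply, sg_mul, sg_mul]
      rw [← hη i]; ring
    rw [this, abs_mul, abs_sg, one_mul]
  rw [e1]
  have hb' : (b : ℝ) ≠ 0 := by positivity
  have e2 : ((∑ i, |s i|) / b) * (∑ ε : SV b, ψ (tot ε) * tot ε) =
      ∑ i, |s i| * ∑ ε : SV b, ψ (tot ε) * sg (ε i) := by
    rw [div_mul_eq_mul_div, div_eq_iff hb', Finset.sum_mul, Finset.sum_mul]
    apply Finset.sum_congr rfl
    intro i _
    rw [← sum_psi_coord ψ i]; ring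
  rw [e2]
  have e3 : |w| * (∑ ε : SV b, ψ (tot ε)) + ∑ i, |s i| * ∑ ε : SV b, ψ (tot ε) * sg (ε i) =
      ∑ ε : SV b, ψ (tot ε) * (|w| + ∑ i, sg (ε i) * |s i|) := by
    simp_rw [mul_add, Finset.sum_add_distrib, Finset.mul_sum]
    congr 1
    · apply Finset.sum_congr rfl; intro ε _; ring
    · rw [Finset.sum_comm]
      apply Finset.sum_congr rfl; intro ε _
      apply Finset.sum_congr rfl; intro i _; ring
  rw [e3]
  apply Finset.sum_le_sum
  intro ε _
  calc ψ (tot ε) * (|w| + ∑ i, sg (ε i) * |s i|)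
      ≤ |ψ (tot ε) * (|w| + ∑ i, sg (ε i) * |s i|)| := le_abs_self _
    _ = |ψ (tot ε)| * abs (|w| + ∑ i, sg (ε i) * |s i|) := abs_mul _ _
    _ ≤ 1 * abs (|w| + ∑ i, sg (ε i) * |s i|) := mul_le_mul_of_nonneg_right (hψ _) (abs_nonneg _)
    _ = _ := one_mul _

/-! ### special test functions -/

def psi0 (k : ℤ) : ℝ := if 0 < k then 1 else -1
def psi1 (k : ℤ) : ℝ := if -2 < k then 1 else -1
def psi2 (k : ℤ) : ℝ := if -4 < k then 1 else -1

theorem abs_psi0 (k : ℤ) : |psi0 k| ≤ 1 := by unfold psi0; split_ifs <;> simp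
theorem abs_psi1 (k : ℤ) : |psi1 k| ≤ 1 := by unfold psi1; split_ifs <;> simp
theorem abs_psi2 (k : ℤ) : |psi2 k| ≤ 1 := by unfold psi2; split_ifs <;> simp

/-- number of sign vectors with sum `k` -/
noncomputable def cnt (b : ℕ) (k : ℤ) : ℝ := ∑ ε : SV b, if tot ε = k then (1 : ℝ) else 0

/-- total absolute sum -/
noncomputable def Mt (b : ℕ) : ℝ := ∑ ε : SV b, |((tot ε : ℤ) : ℝ)|

theorem sum_psi0 {b : ℕ} (hb : Odd b) : ∑ ε : SV b, psi0 (tot ε) = 0 := by
  have h : ∑ ε : SV b, psi0 (tot ε) = - ∑ ε : SV b, psi0 (tot ε) := by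
    conv_lhs => rw [← sum_SV_neg]
    rw [← Finset.sum_neg_distrib]
    apply Finset.sum_congr rfl
    intro ε _
    have ho := tot_odd hb ε
    rw [tot_neg]
    unfold psi0
    rcases lt_trichotomy (tot ε) 0 with h | h | h
    · rw [if_pos (by omega), if_neg (by omega)]; ring
    · rw [h] at ho; exact absurd ho (by decide)
    · rw [if_neg (by omega), if_pos (by omega)]
  linarith

theorem sum_psi0_tot {b : ℕ} : ∑ ε : SV b, psi0 (tot ε) * tot ε = Mt b := by
  apply Finset.sum_congr rfl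
  intro ε _
  unfold psi0
  split_ifs with h
  · rw [one_mul, abs_of_pos (by exact_mod_cast h)]
  · rw [abs_of_nonpos (by exact_mod_cast not_lt.mp h)]; ring

theorem psi1_eq {b : ℕ} (hb : Odd b) (ε : SV b) :
    psi1 (tot ε) = psi0 (tot ε) + 2 * (if tot ε = -1 then (1 : ℝ) else 0) := by
  have ho := tot_odd hb ε
  unfold psi1 psi0
  obtain ⟨r, hr⟩ := ho
  split_ifs <;> first | omega | norm_num

theorem psi2_eq {b : ℕ} (hb : Odd b) (ε : SV b) :
    psi2 (tot ε) = psi1 (tot ε) + 2 * (if tot ε = -3 then (1 : ℝ) else 0) := by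
  have ho := tot_odd hb ε
  unfold psi1 psi2
  obtain ⟨r, hr⟩ := ho
  split_ifs <;> first | omega | norm_num

theorem sum_psi1 {b : ℕ} (hb : Odd b) : ∑ ε : SV b, psi1 (tot ε) = 2 * cnt b (-1) := by
  rw [Finset.sum_congr rfl (fun ε _ => psi1_eq hb ε), Finset.sum_add_distrib, sum_psi0 hb,
    ← Finset.mul_sum, zero_add]
  rfl

theorem sum_psi2 {b : ℕ} (hb : Odd b) :
    ∑ ε : SV b, psi2 (tot ε) = 2 * cnt b (-1) + 2 * cnt b (-3) := by
  rw [Finset.sum_congr rfl (fun ε _ => psi2_eq hb ε), Finset.sum_add_distrib, sum_psi1 hb,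
    ← Finset.mul_sum]
  rfl

theorem ind_mul {b : ℕ} (k : ℤ) (ε : SV b) :
    (if tot ε = k then (1 : ℝ) else 0) * tot ε = k * (if tot ε = k then (1 : ℝ) else 0) := by
  split_ifs with h
  · rw [h]; ring
  · ring

theorem sum_psi1_tot {b : ℕ} (hb : Odd b) :
    ∑ ε : SV b, psi1 (tot ε) * tot ε = Mt b - 2 * cnt b (-1) := by
  have : ∀ ε : SV b, psi1 (tot ε) * tot ε = psi0 (tot ε) * tot ε +
      (-2) * (if tot ε = -1 then (1 : ℝ) else 0) := by
    intro ε
    rw [psi1_eq hb ε, add_mul, mul_assoc, ind_mul]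
    push_cast; ring
  rw [Finset.sum_congr rfl (fun ε _ => this ε), Finset.sum_add_distrib, sum_psi0_tot,
    ← Finset.mul_sum]
  unfold cnt
  ring

theorem sum_psi2_tot {b : ℕ} (hb : Odd b) :
    ∑ ε : SV b, psi2 (tot ε) * tot ε = Mt b - 2 * cnt b (-1) - 6 * cnt b (-3) := by
  have : ∀ ε : SV b, psi2 (tot ε) * tot ε = psi1 (tot ε) * tot ε +
      (-6) * (if tot ε = -3 then (1 : ℝ) else 0) := by
    intro ε
    rw [psi2_eq hb ε, add_mul, mul_assoc, ind_mul]
    push_cast; ring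
  rw [Finset.sum_congr rfl (fun ε _ => this ε), Finset.sum_add_distrib, sum_psi1_tot hb,
    ← Finset.mul_sum]
  unfold cnt
  ring

theorem H_one {b : ℕ} (hb : Odd b) : H b 1 = Mt b := by
  have : ∀ ε : SV b, |(1 : ℝ) + ∑ i, sg (ε i)| = psi0 (tot ε) + psi0 (tot ε) * tot ε := by
    intro ε
    rw [← tot_cast]
    obtain ⟨r, hr⟩ := tot_odd hb ε
    unfold psi0
    split_ifs with h
    · rw [abs_of_pos]
      · ring
      · have : (0 : ℝ) < ((tot ε : ℤ) : ℝ) := by exact_mod_cast h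
        linarith
    · rw [abs_of_nonpos]
      · ring
      · have : tot ε ≤ -1 := by omega
        have : ((tot ε : ℤ) : ℝ) ≤ -1 := by exact_mod_cast this
        linarith
  unfold H
  rw [Finset.sum_congr rfl (fun ε _ => this ε), Finset.sum_add_distrib, sum_psi0 hb,
    sum_psi0_tot, zero_add]

theorem H_three {b : ℕ} (hb : Odd b) : H b 3 = Mt b + 4 * cnt b (-1) := by
  have : ∀ ε : SV b, |(3 : ℝ) + ∑ i, sg (ε i)| = 3 * psi1 (tot ε) + psi1 (tot ε) * tot ε := by
    intro ε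
    rw [← tot_cast]
    obtain ⟨r, hr⟩ := tot_odd hb ε
    unfold psi1
    split_ifs with h
    · have : -1 ≤ tot ε := by omega
      have : (-1 : ℝ) ≤ ((tot ε : ℤ) : ℝ) := by exact_mod_cast this
      rw [abs_of_pos (by linarith)]
      ring
    · have : tot ε ≤ -3 := by omega
      have : ((tot ε : ℤ) : ℝ) ≤ -3 := by exact_mod_cast this
      rw [abs_of_nonpos (by linarith)]
      ring
  unfold H
  rw [Finset.sum_congr rfl (fun ε _ => this ε), Finset.sum_add_distrib, ← Finset.mul_sum,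
    sum_psi1 hb, sum_psi1_tot hb]
  ring

theorem H_zero_add_three {b : ℕ} (hb : Odd b) :
    H (b + 3) 0 = 8 * Mt b + 8 * cnt b (-1) := by
  have e : H (b + 3) 0 = H (b + 1 + 1 + 1) 0 := rfl
  rw [e, H_succ, H_succ, H_succ, H_succ, H_succ, H_succ, H_succ]
  have h1 : H b (-1) = H b 1 := H_neg b 1
  have h3 : H b (-3) = H b 3 := H_neg b 3
  norm_num
  rw [h1, h3, H_one hb, H_three hb]
  ring

theorem exists_tot (b : ℕ) : ∀ k : ℕ, k ≤ b → ∃ ε : SV b, tot ε = 2 * (k : ℤ) - b := by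
  induction b with
  | zero => intro k hk; exact ⟨fun i => 1, by simp [tot]; omega⟩
  | succ b ih =>
    intro k hk
    rcases Nat.lt_or_ge b k with h | h
    · obtain ⟨ε, hε⟩ := ih (k - 1) (by omega)
      refine ⟨Fin.cons 1 ε, ?_⟩
      have e : tot (Fin.cons 1 ε : SV (b + 1)) = 1 + tot ε := by
        simp [tot, Fin.sum_univ_succ]
      rw [e, hε]; push_cast; omega
    · obtain ⟨ε, hε⟩ := ih k h
      refine ⟨Fin.cons (-1) ε, ?_⟩
      have e : tot (Fin.cons (-1) ε : SV (b + 1)) = -1 + tot ε := by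
        simp [tot, Fin.sum_univ_succ]
      rw [e, hε]; push_cast; omega

theorem one_le_cnt {b : ℕ} {k : ℤ} (h : ∃ ε : SV b, tot ε = k) : 1 ≤ cnt b k := by
  obtain ⟨ε, hε⟩ := h
  unfold cnt
  calc (1 : ℝ) = if tot ε = k then (1 : ℝ) else 0 := by rw [if_pos hε]
    _ ≤ _ := Finset.single_le_sum (f := fun ε : SV b => if tot ε = k then (1 : ℝ) else 0)
        (fun i _ => by positivity) (Finset.mem_univ ε)

theorem one_le_cnt_one {b : ℕ} (hb : Odd b) : 1 ≤ cnt b (-1) := by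
  obtain ⟨r, hr⟩ := hb
  apply one_le_cnt
  obtain ⟨ε, hε⟩ := exists_tot b r (by omega)
  exact ⟨ε, by rw [hε]; omega⟩

theorem one_le_cnt_three {b : ℕ} (hb : Odd b) (h3 : 3 ≤ b) : 1 ≤ cnt b (-3) := by
  obtain ⟨r, hr⟩ := hb
  apply one_le_cnt
  obtain ⟨ε, hε⟩ := exists_tot b (r - 1) (by omega)
  exact ⟨ε, by rw [hε]; omega⟩

theorem card_le_Mt {b : ℕ} (hb : Odd b) : (2 : ℝ) ^ b ≤ Mt b := by
  have : ∀ ε : SV b, (1 : ℝ) ≤ |((tot ε : ℤ) : ℝ)| := by
    intro ε
    obtain ⟨r, hr⟩ := tot_odd hb ε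
    have : 1 ≤ |tot ε| := Int.one_le_abs (by omega)
    exact_mod_cast this
  calc (2 : ℝ) ^ b = ∑ ε : SV b, (1 : ℝ) := by simp
    _ ≤ _ := Finset.sum_le_sum fun ε _ => this ε

/-- three-term average -/
theorem avg_three (x y z : ℝ) :
    (∑ δ : SV 3, |sg (δ 0) * x + sg (δ 1) * y + sg (δ 2) * z|) / 8 ≤ |x| ∨
    (∑ δ : SV 3, |sg (δ 0) * x + sg (δ 1) * y + sg (δ 2) * z|) / 8 ≤ |y| ∨
    (∑ δ : SV 3, |sg (δ 0) * x + sg (δ 1) * y + sg (δ 2) * z|) / 8 ≤ |z| ∨
    (∑ δ : SV 3, |sg (δ 0) * x + sg (δ 1) * y + sg (δ 2) * z|) / 8 ≤ (|x| + |y| + |z|) / 2 := by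
  have e : ∑ δ : SV 3, |sg (δ 0) * x + sg (δ 1) * y + sg (δ 2) * z| =
      2 * (|x + y + z| + |x + y - z| + |x - y + z| + |x - y - z|) := by
    rw [sum_SV_succ, sum_SV_succ, sum_SV_succ]
    simp only [Fin.cons_zero, Fin.cons_one, sg_one, sg_neg_one]
    have h2 : ∀ (p q r : ℤˣ) (ε : SV 0), (Fin.cons p (Fin.cons q (Fin.cons r ε : SV 1) : SV 2) : SV 3) 2 = r := by
      intro p q r ε; rfl
    simp only [h2, sg_one, sg_neg_one]
    simp only [Finset.univ_unique, Finset.sum_const, Finset.card_singleton, one_smul]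
    have a1 : |-1 * x + -1 * y + -1 * z| = |x + y + z| := by
      rw [← abs_neg]; ring_nf
    have a2 : |-1 * x + -1 * y + 1 * z| = |x + y - z| := by
      rw [← abs_neg]; ring_nf
    have a3 : |-1 * x + 1 * y + -1 * z| = |x - y + z| := by
      rw [← abs_neg]; ring_nf
    have a4 : |-1 * x + 1 * y + 1 * z| = |x - y - z| := by
      rw [← abs_neg]; ring_nf
    have a5 : |1 * x + 1 * y + 1 * z| = |x + y + z| := by ring_nf
    have a6 : |1 * x + 1 * y + -1 * z| = |x + y - z| := by ring_nf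
    have a7 : |1 * x + -1 * y + 1 * z| = |x - y + z| := by ring_nf
    have a8 : |1 * x + -1 * y + -1 * z| = |x - y - z| := by ring_nf
    rw [a1, a2, a3, a4, a5, a6, a7, a8]
    ring
  rw [e]
  rcases abs_cases x with hx | hx <;> rcases abs_cases y with hy | hy <;>
  rcases abs_cases z with hz | hz <;>
  rcases abs_cases (x + y + z) with h1 | h1 <;> rcases abs_cases (x + y - z) with h2 | h2 <;>
  rcases abs_cases (x - y + z) with h3 | h3 <;> rcases abs_cases (x - y - z) with h4 | h4 <;>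
  rw [hx.1, hy.1, hz.1, h1.1, h2.1, h3.1, h4.1] <;>
  first
  | (left; linarith [hx.2, hy.2, hz.2, h1.2, h2.2, h3.2, h4.2])
  | (right; left; linarith [hx.2, hy.2, hz.2, h1.2, h2.2, h3.2, h4.2])
  | (right; right; left; linarith [hx.2, hy.2, hz.2, h1.2, h2.2, h3.2, h4.2])
  | (right; right; right; linarith [hx.2, hy.2, hz.2, h1.2, h2.2, h3.2, h4.2])


/-- `G b w s = ∑_ε |w + ∑ ε_i s_i|` -/
noncomputable def G (b : ℕ) (w : ℝ) (s : Fin b → ℝ) : ℝ := ∑ ε : SV b, |w + ∑ i, sg (ε i) * s i|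

theorem G0 {b : ℕ} (hb : Odd b) (w : ℝ) (s : Fin b → ℝ) :
    ((∑ i, |s i|) / b) * Mt b ≤ G b w s := by
  have h := G_lower hb.pos psi0 abs_psi0 w s
  rw [sum_psi0 hb, sum_psi0_tot] at h
  unfold G; linarith

theorem G1 {b : ℕ} (hb : Odd b) (w : ℝ) (s : Fin b → ℝ) :
    |w| * (2 * cnt b (-1)) + ((∑ i, |s i|) / b) * (Mt b - 2 * cnt b (-1)) ≤ G b w s := by
  have h := G_lower hb.pos psi1 abs_psi1 w s
  rw [sum_psi1 hb, sum_psi1_tot hb] at h
  exact h

theorem G2 {b : ℕ} (hb : Odd b) (w : ℝ) (s : Fin b → ℝ) :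
    |w| * (2 * cnt b (-1) + 2 * cnt b (-3)) +
      ((∑ i, |s i|) / b) * (Mt b - 2 * cnt b (-1) - 6 * cnt b (-3)) ≤ G b w s := by
  have h := G_lower hb.pos psi2 abs_psi2 w s
  rw [sum_psi2 hb, sum_psi2_tot hb] at h
  exact h

/-- the key inequality -/
theorem key_ineq {b : ℕ} (hb : Odd b) (h3 : 3 ≤ b) (x y z : ℝ) (s : Fin b → ℝ) :
    (2 * cnt b (-1) + 2 / 3) *
      ((∑ δ : SV 3, |sg (δ 0) * x + sg (δ 1) * y + sg (δ 2) * z|) / 8) +
      3 * (Mt b - cnt b (-1) - 1 / 3) * ((∑ i, |s i|) / b) ≤ G b x s + G b y s + G b z s := by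
  set a := cnt b (-1) with ha
  set c := cnt b (-3) with hc
  have a1 : 1 ≤ a := one_le_cnt_one hb
  have c1 : 1 ≤ c := one_le_cnt_three hb h3
  set σ := (∑ i, |s i|) / b with hσ
  have hσ0 : 0 ≤ σ := by
    rw [hσ]; exact div_nonneg (Finset.sum_nonneg fun _ _ => abs_nonneg _) (by positivity)
  have hA : ∀ w : ℝ, |w| * (2 * a + 2 / 3) + σ * (Mt b - 2 * a - 2) ≤ G b w s := by
    intro w
    have e1 := G1 hb w s
    have e2 := G2 hb w s
    rw [← ha, ← hσ] at e1 e2
    rw [← hc] at e2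
    have hc0 : 0 < c := by linarith
    have t1 : 0 ≤ 1 - 1 / (3 * c) := by
      rw [sub_nonneg, div_le_one (by positivity)]; linarith
    have t2 : 0 ≤ 1 / (3 * c) := by positivity
    have m1 := mul_le_mul_of_nonneg_left e1 t1
    have m2 := mul_le_mul_of_nonneg_left e2 t2
    have key : (1 - 1 / (3 * c)) * (|w| * (2 * a) + σ * (Mt b - 2 * a)) +
        1 / (3 * c) * (|w| * (2 * a + 2 * c) + σ * (Mt b - 2 * a - 6 * c)) =
        |w| * (2 * a + 2 / 3) + σ * (Mt b - 2 * a - 2) := by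
      field_simp
      ring
    nlinarith [m1, m2, key]
  have hB : ∀ w : ℝ, |w| * (a + 1 / 3) + σ * (Mt b - a - 1 / 3) ≤ G b w s := by
    intro w
    have e0 := G0 hb w s
    have e1 := G1 hb w s
    rw [← hσ] at e0
    rw [← ha, ← hσ] at e1
    have ha0 : 0 < a := by linarith
    have t1 : 0 ≤ 1 - (a + 1 / 3) / (2 * a) := by
      rw [sub_nonneg, div_le_one (by positivity)]; linarith
    have t2 : 0 ≤ (a + 1 / 3) / (2 * a) := by positivity
    have m1 := mul_le_mul_of_nonneg_left e0 t1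
    have m2 := mul_le_mul_of_nonneg_left e1 t2
    have key : (1 - (a + 1 / 3) / (2 * a)) * (σ * Mt b) +
        (a + 1 / 3) / (2 * a) * (|w| * (2 * a) + σ * (Mt b - 2 * a)) =
        |w| * (a + 1 / 3) + σ * (Mt b - a - 1 / 3) := by
      field_simp
      ring
    nlinarith [m1, m2, key]
  have hC : ∀ w : ℝ, σ * Mt b ≤ G b w s := fun w => G0 hb w s
  have aσ : 0 ≤ σ * (a - 1) := mul_nonneg hσ0 (by linarith)
  have ap : 0 ≤ 2 * a + 2 / 3 := by linarith
  rcases avg_three x y z with h | h | h | h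
  · have m := mul_le_mul_of_nonneg_left h ap
    have := hA x; have := hC y; have := hC z
    nlinarith
  · have m := mul_le_mul_of_nonneg_left h ap
    have := hA y; have := hC x; have := hC z
    nlinarith
  · have m := mul_le_mul_of_nonneg_left h ap
    have := hA z; have := hC x; have := hC y
    nlinarith
  · have m := mul_le_mul_of_nonneg_left h ap
    have := hB x; have := hB y; have := hB z
    nlinarith

/-- the four-dimensional inequality -/
theorem ineq4 (x y z w : ℝ) :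
    |2 * x + 7 * y + 7 * z| + |2 * x + 7 * y - 7 * z| + |2 * x - 7 * y + 7 * z| +
      |2 * x - 7 * y - 7 * z| + 32 * |w| + |x + w| ≤
    11 * (|y + w| + |y - w| + |z + w| + |z - w|) + |x + 3 * y + 4 * w| + |x - 3 * y + 4 * w| +
      |x + 3 * z + 4 * w| + |x - 3 * z + 4 * w| + 3 * |x - w| + 2 * |x| := by
  have b1 := le_abs_self (y + w)
  have b1' := neg_abs_le (y + w)
  have b2 := le_abs_self (y - w)
  have b2' := neg_abs_le (y - w)
  have b3 := le_abs_self (z + w)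
  have b3' := neg_abs_le (z + w)
  have b4 := le_abs_self (z - w)
  have b4' := neg_abs_le (z - w)
  have b5 := le_abs_self (x + 3 * y + 4 * w)
  have b5' := neg_abs_le (x + 3 * y + 4 * w)
  have b6 := le_abs_self (x - 3 * y + 4 * w)
  have b6' := neg_abs_le (x - 3 * y + 4 * w)
  have b7 := le_abs_self (x + 3 * z + 4 * w)
  have b7' := neg_abs_le (x + 3 * z + 4 * w)
  have b8 := le_abs_self (x - 3 * z + 4 * w)
  have b8' := neg_abs_le (x - 3 * z + 4 * w)
  have b9 := le_abs_self (x - w)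
  have b9' := neg_abs_le (x - w)
  have b10 := le_abs_self x
  have b10' := neg_abs_le x
  rcases abs_cases (2 * x + 7 * y + 7 * z) with ⟨h1, h1'⟩ | ⟨h1, h1'⟩ <;> rw [h1] <;>
  rcases abs_cases (2 * x + 7 * y - 7 * z) with ⟨h2, h2'⟩ | ⟨h2, h2'⟩ <;> rw [h2] <;>
  rcases abs_cases (2 * x - 7 * y + 7 * z) with ⟨h3, h3'⟩ | ⟨h3, h3'⟩ <;> rw [h3] <;>
  rcases abs_cases (2 * x - 7 * y - 7 * z) with ⟨h4, h4'⟩ | ⟨h4, h4'⟩ <;> rw [h4] <;>
  rcases abs_cases w with ⟨h5, h5'⟩ | ⟨h5, h5'⟩ <;> rw [h5] <;>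
  rcases abs_cases (x + w) with ⟨h6, h6'⟩ | ⟨h6, h6'⟩ <;> rw [h6] <;>
  linarith

/-! ### zonotopes and the constant -/

theorem zonotope_of_fintype {n : ℕ} {ι : Type} [Fintype ι] (a b : ι → E n) :
    IsZonotope (∑ i, segment ℝ (a i) (b i)) :=
  ⟨Fintype.card ι, a ∘ (Fintype.equivFin ι).symm, b ∘ (Fintype.equivFin ι).symm,
    (Equiv.sum_comp (Fintype.equivFin ι).symm (fun i => segment ℝ (a i) (b i))).symm⟩

theorem IsZonotope.isZonoid {n : ℕ} {Z : Set (E n)} (h : IsZonotope Z) : IsZonoid Z :=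
  ⟨isCompact_zonotope h, nonempty_zonotope h, fun _ => Z, fun _ => h, by
    simp [Metric.hausdorffDist_self_zero]⟩

theorem lam_le {n : ℕ} {K Z : Set (E n)} {t : ℝ} (ht : 1 ≤ t) (hZ : IsZonotope Z)
    (h1 : K ⊆ Z) (h2 : Z ⊆ t • K) : lam K ≤ t :=
  csInf_le ⟨1, fun _ hs => hs.1⟩ ⟨ht, Z, hZ.isZonoid, h1, h2⟩

theorem le_lam {n : ℕ} {K Z₀ : Set (E n)} {t₀ c : ℝ} (ht : 1 ≤ t₀) (hZ : IsZonotope Z₀)
    (h1 : K ⊆ Z₀) (h2 : Z₀ ⊆ t₀ • K)
    (h : ∀ (t : ℝ) (Z : Set (E n)), 1 ≤ t → IsZonoid Z → K ⊆ Z → Z ⊆ t • K → c ≤ t) :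
    c ≤ lam K :=
  le_csInf ⟨t₀, ht, Z₀, hZ.isZonoid, h1, h2⟩ fun t ⟨ht, Z, hZ, h1, h2⟩ => h t Z ht hZ h1 h2

theorem convex_zonotope {n : ℕ} {ι : Type} [Fintype ι] (a b : ι → E n) :
    Convex ℝ (∑ i, segment ℝ (a i) (b i)) :=
  convex_sum _ fun _ _ => convex_segment _ _

theorem mem_seg_neg {n : ℕ} (v : E n) {τ : ℝ} (h : |τ| ≤ 1) : τ • v ∈ segment ℝ (-v) v := by
  rw [abs_le] at h
  refine ⟨(1 - τ) / 2, (1 + τ) / 2, by linarith, by linarith, by ring, ?_⟩
  rw [smul_neg, ← neg_smul, ← add_smul]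
  congr 1; ring

theorem of_mem_seg_neg {n : ℕ} {v x : E n} (h : x ∈ segment ℝ (-v) v) :
    ∃ τ : ℝ, |τ| ≤ 1 ∧ x = τ • v := by
  obtain ⟨s, t, hs, ht, hst, rfl⟩ := h
  refine ⟨t - s, by rw [abs_le]; constructor <;> linarith, ?_⟩
  rw [smul_neg, sub_smul]; abel

/-! ### the cross-polytope -/

theorem mem_cross {n : ℕ} (hn : 0 < n) (x : E n) (h : ∑ i, |x i| ≤ 1) : x ∈ crossPolytope n := by
  have hconv : Convex ℝ (crossPolytope n) := convex_convexHull ℝ _
  have hp : ∀ i, EuclideanSpace.single i (1 : ℝ) ∈ crossPolytope n := fun i =>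
    subset_convexHull ℝ _ (Or.inl ⟨i, rfl⟩)
  have hm : ∀ i, -EuclideanSpace.single i (1 : ℝ) ∈ crossPolytope n := fun i =>
    subset_convexHull ℝ _ (Or.inr ⟨i, rfl⟩)
  have h0 : (0 : E n) ∈ crossPolytope n := by
    have := hconv (hp ⟨0, hn⟩) (hm ⟨0, hn⟩) (by norm_num : (0 : ℝ) ≤ 1 / 2)
      (by norm_num : (0 : ℝ) ≤ 1 / 2) (by norm_num)
    rwa [smul_neg, add_neg_cancel] at this
  set r := ∑ i, |x i| with hr
  have hr0 : 0 ≤ r := Finset.sum_nonneg fun _ _ => abs_nonneg _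
  rcases hr0.eq_or_lt with h1 | h1
  · have hx : x = 0 := by
      ext i
      have := (Finset.sum_eq_zero_iff_of_nonneg (fun i _ => abs_nonneg (x i))).mp h1.symm i
        (Finset.mem_univ i)
      simpa using this
    rw [hx]; exact h0
  · choose η hη using fun i => exists_sg (x i)
    have hs : ∀ i, x i = sg (η i) * |x i| := fun i => by
      rw [← hη, ← mul_assoc, sg_sq, one_mul]
    have hz : ∀ i, sg (η i) • EuclideanSpace.single i (1 : ℝ) ∈ crossPolytope n := by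
      intro i
      rcases Int.units_eq_one_or (η i) with h | h
      · rw [h, sg_one, one_smul]; exact hp i
      · rw [h, sg_neg_one, neg_smul, one_smul]; exact hm i
    have hy : ∑ i, (|x i| / r) • (sg (η i) • EuclideanSpace.single i (1 : ℝ)) ∈
        crossPolytope n := by
      apply hconv.sum_mem
      · intro i _; positivity
      · rw [← Finset.sum_div, ← hr, div_self h1.ne']
      · intro i _; exact hz i
    have hx : x = r • ∑ i, (|x i| / r) • (sg (η i) • EuclideanSpace.single i (1 : ℝ)) := by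
      ext j
      rw [Finset.smul_sum]
      simp only [WithLp.ofLp_sum, WithLp.ofLp_smul, Finset.sum_apply, Pi.smul_apply, smul_eq_mul,
        PiLp.ofLp_single, Pi.single_apply]
      rw [Finset.sum_eq_single j]
      · simp only [if_true, mul_one]
        rw [hs j]
        rw [← hs j]
        field_simp
        rw [mul_comm]; exact hs j
      · intro k _ hk
        simp [Ne.symm hk]
      · simp
    rw [hx]
    exact hconv.smul_mem_of_zero_mem h0 hy ⟨hr0, h⟩

/-- sign vector as a point -/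
noncomputable def vec {n : ℕ} (ε : SV n) : E n := WithLp.toLp 2 (fun i => sg (ε i))

theorem vec_apply {n : ℕ} (ε : SV n) (i : Fin n) : vec ε i = sg (ε i) := rfl

theorem sum_sg_sg {n : ℕ} (i j : Fin n) :
    ∑ ε : SV n, sg (ε i) * sg (ε j) = if i = j then 2 ^ n else 0 := by
  split_ifs with h
  · subst h
    simp_rw [sg_sq]
    simp
  · have := sum_SV_mul (fun ε : SV n => sg (ε i) * sg (ε j))
      (Function.update (1 : SV n) i (-1))
    have h2 : ∀ ε : SV n, sg ((Function.update (1 : SV n) i (-1) * ε) i) *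
        sg ((Function.update (1 : SV n) i (-1) * ε) j) = - (sg (ε i) * sg (ε j)) := by
      intro ε
      rw [Pi.mul_apply, Pi.mul_apply, Function.update_self, Function.update_of_ne (Ne.symm h)]
      simp [sg_neg]
    simp_rw [h2] at this
    rw [Finset.sum_neg_distrib] at this
    linarith

theorem lam_cross_le {n : ℕ} (hn : 0 < n) {t : ℝ} (ht1 : 1 ≤ t) (ht : H n 0 ≤ t * 2 ^ n) :
    lam (crossPolytope n) ≤ t := by
  have hN : (0 : ℝ) < 2 ^ n := by positivity
  set c : ℝ := (2 ^ n)⁻¹ with hc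
  have hc0 : 0 < c := by positivity
  have hcN : c * 2 ^ n = 1 := inv_mul_cancel₀ hN.ne'
  have hmem : ∀ η : SV n → ℤˣ, ∑ ε : SV n, sg (η ε) • (c • vec ε) ∈
      ∑ ε : SV n, segment ℝ (-(c • vec ε)) (c • vec ε) := by
    intro η
    rw [Set.mem_fintype_sum]
    exact ⟨_, fun ε => mem_seg_neg _ (abs_sg _).le, rfl⟩
  have hsum : ∀ i, ∑ ε : SV n, sg (ε i) • (c • vec ε) = EuclideanSpace.single i (1 : ℝ) := by
    intro i
    ext j
    simp only [WithLp.ofLp_sum, WithLp.ofLp_smul, Finset.sum_apply, Pi.smul_apply, smul_eq_mul,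
      PiLp.ofLp_single, Pi.single_apply]
    have : ∀ ε : SV n, sg (ε i) * (c * (vec ε) j) = c * (sg (ε i) * sg (ε j)) := by
      intro ε; rw [vec_apply]; ring
    simp_rw [this]
    rw [← Finset.mul_sum, sum_sg_sg]
    by_cases h : i = j
    · rw [if_pos h, if_pos h.symm, hcN]
    · rw [if_neg h, if_neg (Ne.symm h), mul_zero]
  apply lam_le ht1 (zonotope_of_fintype (fun ε : SV n => -(c • vec ε)) (fun ε => c • vec ε))
  · apply convexHull_min
    · rintro x (⟨i, rfl⟩ | ⟨i, rfl⟩)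
      · show EuclideanSpace.single i (1 : ℝ) ∈ _
        rw [← hsum i]
        exact hmem (fun ε => ε i)
      · show -EuclideanSpace.single i (1 : ℝ) ∈ _
        have : -EuclideanSpace.single i (1 : ℝ) = ∑ ε : SV n, sg (-(ε i)) • (c • vec ε) := by
          rw [← hsum i, ← Finset.sum_neg_distrib]
          apply Finset.sum_congr rfl
          intro ε _
          rw [sg_neg, neg_smul]
        rw [this]
        exact hmem (fun ε => -(ε i))
    · exact convex_zonotope _ _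
  · intro z hz
    rw [Set.mem_fintype_sum] at hz
    obtain ⟨g, hg, rfl⟩ := hz
    choose τ hτ hgτ using fun ε => of_mem_seg_neg (hg ε)
    have ht0 : 0 < t := by linarith
    rw [Set.mem_smul_set]
    refine ⟨t⁻¹ • ∑ ε, g ε, ?_, by rw [smul_smul, mul_inv_cancel₀ ht0.ne', one_smul]⟩
    apply mem_cross hn
    choose η hη using fun i => exists_sg ((∑ ε, g ε : E n) i)
    have e1 : ∀ i, |(t⁻¹ • ∑ ε, g ε : E n) i| = t⁻¹ * (sg (η i) * (∑ ε, g ε : E n) i) := by
      intro i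
      rw [hη i, PiLp.smul_apply, smul_eq_mul, abs_mul, abs_of_pos (by positivity : 0 < t⁻¹)]
    have e2 : ∀ i, (∑ ε, g ε : E n) i = ∑ ε, τ ε * (c * sg (ε i)) := by
      intro i
      simp only [WithLp.ofLp_sum, Finset.sum_apply]
      apply Finset.sum_congr rfl
      intro ε _
      rw [hgτ ε]
      simp only [WithLp.ofLp_smul, Pi.smul_apply, smul_eq_mul, vec_apply]
    simp_rw [e1]
    rw [← Finset.mul_sum]
    have e3 : ∑ i, sg (η i) * (∑ ε, g ε : E n) i ≤ c * H n 0 := by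
      simp_rw [e2, Finset.mul_sum]
      rw [Finset.sum_comm]
      have e4 : c * H n 0 = ∑ ε : SV n, c * |∑ i, sg (η i) * sg (ε i)| := by
        unfold H
        rw [Finset.mul_sum, ← sum_SV_mul _ η]
        apply Finset.sum_congr rfl
        intro ε _
        rw [zero_add]
        simp_rw [Pi.mul_apply, sg_mul]
      rw [e4]
      apply Finset.sum_le_sum
      intro ε _
      have e5 : ∑ i, sg (η i) * (τ ε * (c * sg (ε i))) =
          c * (τ ε * ∑ i, sg (η i) * sg (ε i)) := by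
        rw [Finset.mul_sum, Finset.mul_sum]
        apply Finset.sum_congr rfl
        intro i _; ring
      rw [e5]
      apply mul_le_mul_of_nonneg_left _ hc0.le
      calc τ ε * ∑ i, sg (η i) * sg (ε i) ≤ |τ ε * ∑ i, sg (η i) * sg (ε i)| := le_abs_self _
        _ = |τ ε| * |∑ i, sg (η i) * sg (ε i)| := abs_mul _ _
        _ ≤ 1 * |∑ i, sg (η i) * sg (ε i)| :=
            mul_le_mul_of_nonneg_right (hτ ε) (abs_nonneg _)
        _ = _ := one_mul _
    have e6 : c * H n 0 ≤ t := by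
      calc c * H n 0 ≤ c * (t * 2 ^ n) := mul_le_mul_of_nonneg_left ht hc0.le
        _ = t * (c * 2 ^ n) := by ring
        _ = t := by rw [hcN, mul_one]
    calc t⁻¹ * ∑ i, sg (η i) * (∑ ε, g ε : E n) i ≤ t⁻¹ * t :=
          mul_le_mul_of_nonneg_left (e3.trans e6) (by positivity)
      _ = 1 := inv_mul_cancel₀ ht0.ne'

/-! ### the cube -/

/-- the cube as a sum of segments -/
noncomputable def cube (n : ℕ) : Set (E n) :=
  ∑ i : Fin n, segment ℝ (-EuclideanSpace.single i (1 : ℝ)) (EuclideanSpace.single i (1 : ℝ))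

theorem sum_single {n : ℕ} (x : E n) : ∑ i, x i • EuclideanSpace.single i (1 : ℝ) = x := by
  ext j
  simp only [WithLp.ofLp_sum, WithLp.ofLp_smul, Finset.sum_apply, Pi.smul_apply, smul_eq_mul,
    PiLp.ofLp_single, Pi.single_apply]
  simp

theorem mem_cube {n : ℕ} {x : E n} (h : ∀ i, |x i| ≤ 1) : x ∈ cube n := by
  unfold cube
  rw [Set.mem_fintype_sum]
  exact ⟨fun i => x i • EuclideanSpace.single i (1 : ℝ), fun i => mem_seg_neg _ (h i),
    sum_single x⟩

theorem of_mem_cube {n : ℕ} {x : E n} (hx : x ∈ cube n) (i : Fin n) : |x i| ≤ 1 := by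
  unfold cube at hx
  rw [Set.mem_fintype_sum] at hx
  obtain ⟨g, hg, rfl⟩ := hx
  choose τ hτ hgτ using fun j => of_mem_seg_neg (hg j)
  have : (∑ j, g j : E n) i = τ i := by
    have e : ∀ j, g j = τ j • EuclideanSpace.single j (1 : ℝ) := hgτ
    simp_rw [e]
    simp only [WithLp.ofLp_sum, WithLp.ofLp_smul, Finset.sum_apply, Pi.smul_apply, smul_eq_mul,
      PiLp.ofLp_single, Pi.single_apply]
    simp
  rw [this]; exact hτ i

/-! ### symmetric bodies given by convex even inequalities -/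

theorem symBody_of {n : ℕ} {κ : Type} [Finite κ] (q : κ → E n → ℝ) (hc : ∀ k, Continuous (q k))
    (hconv : ∀ k (x y : E n) (a b : ℝ), 0 ≤ a → 0 ≤ b → a + b = 1 →
      q k (a • x + b • y) ≤ a * q k x + b * q k y)
    (heven : ∀ k x, q k (-x) = q k x) (h0 : ∀ k, q k 0 < 1)
    (hb : ∀ x, (∀ k, q k x ≤ 1) → ∀ i, |x i| ≤ 1) : IsSymBody {x : E n | ∀ k, q k x ≤ 1} := by
  refine ⟨?_, ?_, ?_, ?_⟩
  · apply Metric.isCompact_of_isClosed_isBounded
    · simp only [Set.ofPred_forall]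
      exact isClosed_iInter fun k => isClosed_le (hc k) continuous_const
    · apply (isCompact_zonotope (zonotope_of_fintype
        (fun i : Fin n => -EuclideanSpace.single i (1 : ℝ))
        (fun i => EuclideanSpace.single i (1 : ℝ)))).isBounded.subset
      intro x hx
      exact mem_cube (hb x hx)
  · intro x hx y hy a b ha hb' hab k
    calc q k (a • x + b • y) ≤ a * q k x + b * q k y := hconv k x y a b ha hb' hab
      _ ≤ a * 1 + b * 1 := add_le_add (mul_le_mul_of_nonneg_left (hx k) ha)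
          (mul_le_mul_of_nonneg_left (hy k) hb')
      _ = 1 := by linarith
  · refine ⟨0, ?_⟩
    rw [mem_interior]
    refine ⟨{x : E n | ∀ k, q k x < 1}, fun x hx k => (hx k).le, ?_, h0⟩
    simp only [Set.ofPred_forall]
    exact isOpen_iInter_of_finite fun k => isOpen_lt (hc k) continuous_const
  · ext x
    simp only [Set.mem_neg, Set.mem_ofPred_eq, heven]

/-- linear functional with given coefficients -/
noncomputable def fn {n : ℕ} (c : Fin n → ℝ) : E n →L[ℝ] ℝ :=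
  ∑ i, c i • (EuclideanSpace.proj i : E n →L[ℝ] ℝ)

theorem fn_apply {n : ℕ} (c : Fin n → ℝ) (x : E n) : fn c x = ∑ i, c i * x i := by
  simp [fn]

theorem fn_append {m b : ℕ} (c : Fin m → ℝ) (d : Fin b → ℝ) (x : E (m + b)) :
    fn (Fin.append c d) x = ∑ j, c j * x (Fin.castAdd b j) + ∑ i, d i * x (Fin.natAdd m i) := by
  rw [fn_apply, Fin.sum_univ_add]
  simp only [Fin.append_left, Fin.append_right]

/-! ### dimension `3 + b`, `b ≥ 3` odd -/

/-- the gauge pieces of the join of the 3-cube and the `b`-dimensional cross-polytope -/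
def qK (b : ℕ) (j : Fin 3) (x : E (3 + b)) : ℝ :=
  |x (Fin.castAdd b j)| + ∑ i : Fin b, |x (Fin.natAdd 3 i)|

/-- the convex hull of a 3-cube and a complementary cross-polytope -/
def bodyK (b : ℕ) : Set (E (3 + b)) := {x | ∀ j : Fin 3, qK b j x ≤ 1}

theorem abs_comb {a b : ℝ} (ha : 0 ≤ a) (hb : 0 ≤ b) (x y : ℝ) :
    |a * x + b * y| ≤ a * |x| + b * |y| := by
  calc |a * x + b * y| ≤ |a * x| + |b * y| := abs_add_le _ _
    _ = a * |x| + b * |y| := by rw [abs_mul, abs_mul, abs_of_nonneg ha, abs_of_nonneg hb]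

theorem bodyK_sym (b : ℕ) : IsSymBody (bodyK b) := by
  apply symBody_of
  · intro j
    unfold qK
    fun_prop
  · intro j x y s t hs ht hst
    unfold qK
    simp only [PiLp.add_apply, PiLp.smul_apply, smul_eq_mul]
    have h1 := abs_comb hs ht (x (Fin.castAdd b j)) (y (Fin.castAdd b j))
    have h2 : ∑ i : Fin b, |s * x (Fin.natAdd 3 i) + t * y (Fin.natAdd 3 i)| ≤
        ∑ i : Fin b, (s * |x (Fin.natAdd 3 i)| + t * |y (Fin.natAdd 3 i)|) :=
      Finset.sum_le_sum fun i _ => abs_comb hs ht _ _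
    rw [Finset.sum_add_distrib, ← Finset.mul_sum, ← Finset.mul_sum] at h2
    linarith
  · intro j x
    unfold qK
    simp only [PiLp.neg_apply, abs_neg]
  · intro j
    unfold qK
    simp
  · intro x hx i
    have hs : 0 ≤ ∑ i : Fin b, |x (Fin.natAdd 3 i)| :=
      Finset.sum_nonneg fun _ _ => abs_nonneg _
    refine Fin.addCases (fun j => ?_) (fun k => ?_) i
    · have := hx j
      unfold qK at this
      linarith
    · have := hx 0
      unfold qK at this
      have h2 : |x (Fin.natAdd 3 k)| ≤ ∑ i : Fin b, |x (Fin.natAdd 3 i)| :=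
        Finset.single_le_sum (f := fun i : Fin b => |x (Fin.natAdd 3 i)|)
          (fun i _ => abs_nonneg _) (Finset.mem_univ k)
      have h3 := abs_nonneg (x (Fin.castAdd b (0 : Fin 3)))
      linarith

theorem cnt_le {b : ℕ} : cnt b (-1) + cnt b (-3) ≤ 2 ^ b := by
  unfold cnt
  rw [← Finset.sum_add_distrib]
  calc ∑ ε : SV b, ((if tot ε = -1 then (1 : ℝ) else 0) + if tot ε = -3 then (1 : ℝ) else 0)
      ≤ ∑ ε : SV b, (1 : ℝ) := by
        apply Finset.sum_le_sum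
        intro ε _
        split_ifs <;> first | omega | norm_num
    _ = 2 ^ b := by simp

theorem lower_K {b : ℕ} (hb : Odd b) (h3 : 3 ≤ b) (t : ℝ) (Z : Set (E (3 + b))) (ht : 1 ≤ t)
    (hZ : IsZonoid Z) (h1 : bodyK b ⊆ Z) (h2 : Z ⊆ t • bodyK b) :
    (Mt b + cnt b (-1) + 1 / 3) / 2 ^ b ≤ t := by
  set a := cnt b (-1) with ha
  have hP : 0 ≤ 2 * a + 2 / 3 := by have : 1 ≤ a := one_le_cnt_one hb; linarith
  have hQ : 0 ≤ Mt b - a - 1 / 3 := by
    have := @cnt_le b
    have := card_le_Mt hb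
    have := one_le_cnt_three hb h3
    linarith
  have hb0 : (0 : ℝ) < b := by exact_mod_cast hb.pos
  set P := 2 * a + 2 / 3 with hPdef
  set Q := Mt b - a - 1 / 3 with hQdef
  have key := cert (ι := SV 3 ⊕ Fin b) (κ := Fin 3 × SV b) hZ h1 h2 (by linarith)
    (Sum.elim (fun δ => fn (Fin.append (fun j => P / 8 * sg (δ j)) 0))
      (fun i => fn (Fin.append (0 : Fin 3 → ℝ) (Pi.single i (3 * Q / b)))))
    (Sum.elim (fun δ => WithLp.toLp 2 (Fin.append (fun j => sg (δ j)) 0))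
      (fun i => WithLp.toLp 2 (Fin.append (0 : Fin 3 → ℝ) (Pi.single i 1))))
    ?_ ?_ (fun k => fn (Fin.append (Pi.single k.1 1) (fun i => sg (k.2 i)))) (fun _ => 1) ?_ ?_
  · rw [Fintype.sum_sum_type] at key
    simp only [Sum.elim_inl, Sum.elim_inr, fn_append] at key
    simp only [Fin.append_left, Fin.append_right, Pi.zero_apply, mul_zero,
      Finset.sum_const_zero, add_zero, zero_add] at key
    have e1 : ∀ δ : SV 3, ∑ j, P / 8 * sg (δ j) * sg (δ j) = P / 8 * 3 := by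
      intro δ
      simp_rw [mul_assoc, sg_sq]
      simp; ring
    have e2 : ∀ i : Fin b, ∑ k, (Pi.single i (3 * Q / b) : Fin b → ℝ) k *
        (Pi.single i 1 : Fin b → ℝ) k = 3 * Q / b := by
      intro i
      rw [Finset.sum_eq_single i]
      · simp
      · intro k _ hk; simp [hk]
      · simp
    simp_rw [e1, e2] at key
    simp only [Finset.sum_const, Finset.card_univ, nsmul_eq_mul, Fintype.card_prod,
      Fintype.card_fin, mul_one, Fintype.card_pi, Finset.prod_const, Fintype.card_units_int] at key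
    rw [div_le_iff₀ (by positivity)]
    have e3 : (b : ℝ) * (3 * Q / b) = 3 * Q := by field_simp
    rw [e3] at key
    push_cast at key
    have : P + Q ≤ t * 2 ^ b := by nlinarith
    rw [hPdef, hQdef] at this
    linarith
  · -- inner points lie in the body
    rintro (δ | i)
    · intro j
      simp only [Sum.elim_inl, qK, Fin.append_left, Fin.append_right, Pi.zero_apply, abs_zero,
        Finset.sum_const_zero, add_zero, abs_sg, le_refl]
    · intro j
      simp only [Sum.elim_inr, qK, Fin.append_left, Fin.append_right, Pi.zero_apply, abs_zero,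
        zero_add]
      rw [Finset.sum_eq_single i]
      · simp
      · intro k _ hk; simp [hk]
      · simp
  · rintro (δ | i)
    · intro j
      simp only [Sum.elim_inl, qK, PiLp.neg_apply, Fin.append_left, Fin.append_right,
        Pi.zero_apply, abs_neg, abs_zero, Finset.sum_const_zero, add_zero, abs_sg, le_refl]
    · intro j
      simp only [Sum.elim_inr, qK, PiLp.neg_apply, Fin.append_left, Fin.append_right,
        Pi.zero_apply, abs_neg, abs_zero, zero_add]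
      rw [Finset.sum_eq_single i]
      · simp
      · intro k _ hk; simp [hk]
      · simp
  · rintro ⟨j, ε⟩ x hx
    have := hx j
    unfold qK at this
    rw [fn_append]
    have e1 : ∑ k, (Pi.single j 1 : Fin 3 → ℝ) k * x (Fin.castAdd b k) = x (Fin.castAdd b j) := by
      rw [Finset.sum_eq_single j]
      · simp
      · intro k _ hk; simp [hk]
      · simp
    simp only [e1]
    calc |x (Fin.castAdd b j) + ∑ i, sg (ε i) * x (Fin.natAdd 3 i)|
        ≤ |x (Fin.castAdd b j)| + |∑ i, sg (ε i) * x (Fin.natAdd 3 i)| := abs_add_le _ _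
      _ ≤ |x (Fin.castAdd b j)| + ∑ i, |sg (ε i) * x (Fin.natAdd 3 i)| := by
          gcongr; exact Finset.abs_sum_le_sum_abs _ _
      _ = |x (Fin.castAdd b j)| + ∑ i, |x (Fin.natAdd 3 i)| := by
          simp_rw [abs_mul, abs_sg, one_mul]
      _ ≤ 1 := this
  · intro v
    rw [Fintype.sum_sum_type, Fintype.sum_prod_type]
    simp only [Sum.elim_inl, Sum.elim_inr, fn_append]
    simp only [Pi.zero_apply, zero_mul, Finset.sum_const_zero, add_zero, zero_add]
    have e1 : ∀ δ : SV 3, |∑ j, P / 8 * sg (δ j) * v (Fin.castAdd b j)| =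
        P / 8 * |sg (δ 0) * v (Fin.castAdd b 0) + sg (δ 1) * v (Fin.castAdd b 1) +
          sg (δ 2) * v (Fin.castAdd b 2)| := by
      intro δ
      rw [Fin.sum_univ_three, ← abs_of_nonneg (by positivity : 0 ≤ P / 8), ← abs_mul,
        abs_of_nonneg (by positivity : 0 ≤ P / 8)]
      congr 1; ring
    have e2 : ∀ i : Fin b, |∑ k, (Pi.single i (3 * Q / b) : Fin b → ℝ) k *
        v (Fin.natAdd 3 k)| = 3 * Q / b * |v (Fin.natAdd 3 i)| := by
      intro i
      rw [Finset.sum_eq_single i]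
      · rw [Pi.single_eq_same, abs_mul, abs_of_nonneg (by positivity)]
      · intro k _ hk; simp [hk]
      · simp
    have e3 : ∀ (j : Fin 3) (ε : SV b), |∑ k, (Pi.single j 1 : Fin 3 → ℝ) k *
        v (Fin.castAdd b k) + ∑ i, sg (ε i) * v (Fin.natAdd 3 i)| =
        |v (Fin.castAdd b j) + ∑ i, sg (ε i) * v (Fin.natAdd 3 i)| := by
      intro j ε
      congr 2
      rw [Finset.sum_eq_single j]
      · simp
      · intro k _ hk; simp [hk]
      · simp
    simp_rw [e1, e2, e3]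
    rw [Fin.sum_univ_three, ← Finset.mul_sum, ← Finset.mul_sum]
    have := key_ineq hb h3 (v (Fin.castAdd b 0)) (v (Fin.castAdd b 1)) (v (Fin.castAdd b 2))
      (fun i => v (Fin.natAdd 3 i))
    unfold G at this
    rw [← ha, ← hPdef] at this
    refine le_trans (le_of_eq ?_) this
    rw [← hQdef]
    ring

theorem case_ge_six {b : ℕ} (hb : Odd b) (h3 : 3 ≤ b) :
    ∃ K : Set (E (3 + b)), IsSymBody K ∧ lam (crossPolytope (3 + b)) < lam K := by
  refine ⟨bodyK b, bodyK_sym b, ?_⟩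
  have hN : (0 : ℝ) < 2 ^ b := by positivity
  have up : lam (crossPolytope (3 + b)) ≤ (Mt b + cnt b (-1)) / 2 ^ b := by
    apply lam_cross_le (by omega)
    · rw [one_le_div hN]
      have := card_le_Mt hb
      have := one_le_cnt_one hb
      linarith
    · rw [add_comm 3 b, H_zero_add_three hb, pow_add]
      field_simp
      ring_nf
      rfl
  have lo : (Mt b + cnt b (-1) + 1 / 3) / 2 ^ b ≤ lam (bodyK b) := by
    apply le_lam (t₀ := 1 + b) (Z₀ := cube (3 + b)) (by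
        have : (0 : ℝ) ≤ b := Nat.cast_nonneg b
        linarith) (zonotope_of_fintype _ _)
    · intro x hx
      apply mem_cube
      intro i
      have hs : 0 ≤ ∑ i : Fin b, |x (Fin.natAdd 3 i)| :=
        Finset.sum_nonneg fun _ _ => abs_nonneg _
      refine Fin.addCases (fun j => ?_) (fun k => ?_) i
      · have := hx j
        unfold qK at this
        linarith
      · have := hx 0
        unfold qK at this
        have h2 : |x (Fin.natAdd 3 k)| ≤ ∑ i : Fin b, |x (Fin.natAdd 3 i)| :=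
          Finset.single_le_sum (f := fun i : Fin b => |x (Fin.natAdd 3 i)|)
            (fun i _ => abs_nonneg _) (Finset.mem_univ k)
        have h3 := abs_nonneg (x (Fin.castAdd b (0 : Fin 3)))
        linarith
    · intro x hx
      have hpos : (0 : ℝ) < 1 + b := by positivity
      rw [Set.mem_smul_set]
      refine ⟨(1 + (b : ℝ))⁻¹ • x, ?_, by rw [smul_smul, mul_inv_cancel₀ hpos.ne', one_smul]⟩
      intro j
      unfold qK
      simp only [PiLp.smul_apply, smul_eq_mul, abs_mul]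
      rw [← Finset.mul_sum, ← mul_add, abs_of_pos (by positivity : 0 < (1 + (b : ℝ))⁻¹),
        inv_mul_le_iff₀ hpos, mul_one]
      have h1 := of_mem_cube hx (Fin.castAdd b j)
      have h2 : ∑ i : Fin b, |x (Fin.natAdd 3 i)| ≤ ∑ i : Fin b, (1 : ℝ) :=
        Finset.sum_le_sum fun i _ => of_mem_cube hx _
      simp only [Finset.sum_const, Finset.card_univ, Fintype.card_fin, nsmul_eq_mul,
        mul_one] at h2
      linarith
    · intro t Z ht hZ h1 h2
      exact lower_K hb h3 t Z ht hZ h1 h2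
  refine lt_of_le_of_lt up (lt_of_lt_of_le ?_ lo)
  rw [div_lt_div_iff_of_pos_right hN]
  linarith

/-! ### dimension 4 -/

/-- gauge pieces of the four-dimensional body, the convex hull of the 3-cube, `±e_4` and
`±(1,0,0,3/4)` -/
noncomputable def q4 (k : Fin 6) (x : E 4) : ℝ :=
  ![|x 0|, |x 0 - x 3|, |x 1| + |x 3|, |x 2| + |x 3|, (|x 0 + 4 * x 3| + 3 * |x 1|) / 4,
    (|x 0 + 4 * x 3| + 3 * |x 2|) / 4] k

/-- the four-dimensional body -/
def body4 : Set (E 4) := {x | ∀ k, q4 k x ≤ 1}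

theorem body4_iff (x : E 4) : x ∈ body4 ↔ |x 0| ≤ 1 ∧ |x 0 - x 3| ≤ 1 ∧ |x 1| + |x 3| ≤ 1 ∧
    |x 2| + |x 3| ≤ 1 ∧ (|x 0 + 4 * x 3| + 3 * |x 1|) / 4 ≤ 1 ∧
    (|x 0 + 4 * x 3| + 3 * |x 2|) / 4 ≤ 1 := by
  unfold body4
  rw [Set.mem_ofPred_eq]
  constructor
  · intro h
    exact ⟨h 0, h 1, h 2, h 3, h 4, h 5⟩
  · rintro ⟨h0, h1, h2, h3, h4, h5⟩ k
    fin_cases k
    · exact h0
    · exact h1
    · exact h2
    · exact h3
    · exact h4
    · exact h5

theorem body4_sym : IsSymBody body4 := by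
  apply symBody_of
  · intro k
    fin_cases k
    · exact (by fun_prop : Continuous fun x : E 4 => |x 0|)
    · exact (by fun_prop : Continuous fun x : E 4 => |x 0 - x 3|)
    · exact (by fun_prop : Continuous fun x : E 4 => |x 1| + |x 3|)
    · exact (by fun_prop : Continuous fun x : E 4 => |x 2| + |x 3|)
    · exact (by fun_prop : Continuous fun x : E 4 => (|x 0 + 4 * x 3| + 3 * |x 1|) / 4)
    · exact (by fun_prop : Continuous fun x : E 4 => (|x 0 + 4 * x 3| + 3 * |x 2|) / 4)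
  · intro k x y s t hs ht hst
    have c0 := abs_comb hs ht (x 0) (y 0)
    have c1 := abs_comb hs ht (x 1) (y 1)
    have c2 := abs_comb hs ht (x 2) (y 2)
    have c3 := abs_comb hs ht (x 3) (y 3)
    have c4 := abs_comb hs ht (x 0 - x 3) (y 0 - y 3)
    have c5 := abs_comb hs ht (x 0 + 4 * x 3) (y 0 + 4 * y 3)
    have e4 : s * (x 0 - x 3) + t * (y 0 - y 3) = s * x 0 + t * y 0 - (s * x 3 + t * y 3) := by
      ring
    have e5 : s * (x 0 + 4 * x 3) + t * (y 0 + 4 * y 3) =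
        s * x 0 + t * y 0 + 4 * (s * x 3 + t * y 3) := by ring
    rw [e4] at c4
    rw [e5] at c5
    fin_cases k <;>
      simp only [q4, PiLp.add_apply, PiLp.smul_apply, smul_eq_mul, Fin.zero_eta, Fin.mk_one,
        Fin.reduceFinMk, Matrix.cons_val_zero, Matrix.cons_val_one, Matrix.cons_val] <;>
      linarith
  · intro k x
    have e1 : |-x 0 - -x 3| = |x 0 - x 3| := by rw [← abs_neg]; ring_nf
    have e2 : |-x 0 + 4 * -x 3| = |x 0 + 4 * x 3| := by rw [← abs_neg]; ring_nf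
    fin_cases k <;>
      simp only [q4, PiLp.neg_apply, Fin.zero_eta, Fin.mk_one,
        Fin.reduceFinMk, Matrix.cons_val_zero, Matrix.cons_val_one, Matrix.cons_val, abs_neg,
        e1, e2]
  · intro k
    fin_cases k <;> simp [q4]
  · intro x hx i
    obtain ⟨h0, h1, h2, h3, -, -⟩ := (body4_iff x).mp hx
    have := abs_nonneg (x 1)
    have := abs_nonneg (x 2)
    have := abs_nonneg (x 3)
    fin_cases i
    · exact h0
    · show |x 1| ≤ 1
      linarith
    · show |x 2| ≤ 1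
      linarith
    · show |x 3| ≤ 1
      linarith

/-- inner functionals -/
def F4 : Fin 6 → Fin 4 → ℝ :=
  ![![2, 7, 7, 0], ![2, 7, -7, 0], ![2, -7, 7, 0], ![2, -7, -7, 0], ![0, 0, 0, 32], ![1, 0, 0, 1]]

/-- inner points -/
noncomputable def P4 : Fin 6 → Fin 4 → ℝ :=
  ![![1, 1, 1, 0], ![1, 1, -1, 0], ![1, -1, 1, 0], ![1, -1, -1, 0], ![0, 0, 0, 1],
    ![1, 0, 0, 3 / 4]]

/-- outer functionals -/
def U4 : Fin 10 → Fin 4 → ℝ :=
  ![![0, 11, 0, 11], ![0, 11, 0, -11], ![0, 0, 11, 11], ![0, 0, 11, -11], ![1, 3, 0, 4],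
    ![1, -3, 0, 4], ![1, 0, 3, 4], ![1, 0, -3, 4], ![3, 0, 0, -3], ![2, 0, 0, 0]]

/-- outer support values -/
def h4 : Fin 10 → ℝ := ![11, 11, 11, 11, 4, 4, 4, 4, 3, 2]

theorem P4_mem (i : Fin 6) : (WithLp.toLp 2 (P4 i) : E 4) ∈ body4 := by
  rw [body4_iff]
  fin_cases i <;> simp [P4] <;> norm_num

theorem P4_mem' (i : Fin 6) : -(WithLp.toLp 2 (P4 i) : E 4) ∈ body4 := by
  rw [body4_iff]
  fin_cases i <;> simp [P4] <;> norm_num [abs_le]

theorem U4_le (k : Fin 10) (x : E 4) (hx : x ∈ body4) : |fn (U4 k) x| ≤ h4 k := by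
  obtain ⟨a0, a1, a2, a3, a4, a5⟩ := (body4_iff x).mp hx
  have b0 := abs_le.mp a0
  have b1 := abs_le.mp a1
  have l1 := le_abs_self (x 1)
  have l1' := neg_abs_le (x 1)
  have l2 := le_abs_self (x 2)
  have l2' := neg_abs_le (x 2)
  have l3 := le_abs_self (x 3)
  have l3' := neg_abs_le (x 3)
  have l4 := le_abs_self (x 0 + 4 * x 3)
  have l4' := neg_abs_le (x 0 + 4 * x 3)
  rw [fn_apply, Fin.sum_univ_four]
  fin_cases k <;>
    simp only [U4, h4, Fin.zero_eta, Fin.mk_one,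
        Fin.reduceFinMk, Matrix.cons_val_zero, Matrix.cons_val_one, Matrix.cons_val] <;>
    rw [abs_le] <;> constructor <;> linarith [b0.1, b0.2, b1.1, b1.2]

theorem lower_4 (t : ℝ) (Z : Set (E 4)) (ht : 1 ≤ t)
    (hZ : IsZonoid Z) (h1 : body4 ⊆ Z) (h2 : Z ⊆ t • body4) : 391 / 260 ≤ t := by
  have key := cert hZ h1 h2 (by linarith) (fun i => fn (F4 i)) (fun i => WithLp.toLp 2 (P4 i))
    P4_mem P4_mem' (fun k => fn (U4 k)) h4 U4_le ?_
  · simp only [Fin.sum_univ_six, fn_apply, Fin.sum_univ_four] at key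
    have e : ∑ k, h4 k = 65 := by
      simp [h4, Fin.sum_univ_succ]; norm_num
    rw [e] at key
    simp [F4, P4] at key
    norm_num at key
    linarith
  · intro v
    have key := ineq4 (v 0) (v 1) (v 2) (v 3)
    have e1 : ∑ i, |fn (F4 i) v| = |2 * v 0 + 7 * v 1 + 7 * v 2| + |2 * v 0 + 7 * v 1 - 7 * v 2| +
        |2 * v 0 - 7 * v 1 + 7 * v 2| + |2 * v 0 - 7 * v 1 - 7 * v 2| + 32 * |v 3| +
        |v 0 + v 3| := by
      rw [Fin.sum_univ_six]
      simp only [fn_apply, Fin.sum_univ_four]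
      have : 32 * |v 3| = |32 * v 3| := by rw [abs_mul]; norm_num
      rw [this]
      simp [F4, sub_eq_add_neg]
    have e2 : ∑ k, |fn (U4 k) v| = 11 * (|v 1 + v 3| + |v 1 - v 3| + |v 2 + v 3| +
        |v 2 - v 3|) + |v 0 + 3 * v 1 + 4 * v 3| + |v 0 - 3 * v 1 + 4 * v 3| +
        |v 0 + 3 * v 2 + 4 * v 3| + |v 0 - 3 * v 2 + 4 * v 3| + 3 * |v 0 - v 3| +
        2 * |v 0| := by
      have s1 : 11 * |v 1 + v 3| = |11 * v 1 + 11 * v 3| := by
        rw [← mul_add, abs_mul]; norm_num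
      have s2 : 11 * |v 1 - v 3| = |11 * v 1 + -(11 * v 3)| := by
        rw [← sub_eq_add_neg, ← mul_sub, abs_mul]; norm_num
      have s3 : 11 * |v 2 + v 3| = |11 * v 2 + 11 * v 3| := by
        rw [← mul_add, abs_mul]; norm_num
      have s4 : 11 * |v 2 - v 3| = |11 * v 2 + -(11 * v 3)| := by
        rw [← sub_eq_add_neg, ← mul_sub, abs_mul]; norm_num
      have s5 : 3 * |v 0 - v 3| = |3 * v 0 + -(3 * v 3)| := by
        rw [← sub_eq_add_neg, ← mul_sub, abs_mul]; norm_num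
      have s6 : 2 * |v 0| = |2 * v 0| := by
        rw [abs_mul]; norm_num
      rw [mul_add, mul_add, mul_add, s1, s2, s3, s4, s5, s6]
      simp only [Fin.sum_univ_succ, Fin.sum_univ_zero, fn_apply]
      simp [U4, sub_eq_add_neg]
      ring_nf
    rw [e1, e2]
    exact key

theorem H_four : H 4 0 = 24 := by
  have e : H 4 0 = H (0 + 1 + 1 + 1 + 1) 0 := rfl
  have h0 : ∀ w, H 0 w = |w| := by
    intro w
    unfold H
    simp
  rw [e]
  simp only [H_succ, h0]
  norm_num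

theorem case_four : ∃ K : Set (E 4), IsSymBody K ∧ lam (crossPolytope 4) < lam K := by
  refine ⟨body4, body4_sym, ?_⟩
  have up : lam (crossPolytope 4) ≤ 3 / 2 := by
    apply lam_cross_le (by norm_num) (by norm_num)
    rw [H_four]; norm_num
  have lo : 391 / 260 ≤ lam body4 := by
    apply le_lam (t₀ := 2) (Z₀ := cube 4) (by norm_num) (zonotope_of_fintype _ _)
    · intro x hx
      obtain ⟨h0, h1, h2, h3, -, -⟩ := (body4_iff x).mp hx
      have := abs_nonneg (x 1)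
      have := abs_nonneg (x 2)
      have := abs_nonneg (x 3)
      apply mem_cube
      intro i
      fin_cases i
      · exact h0
      · show |x 1| ≤ 1
        linarith
      · show |x 2| ≤ 1
        linarith
      · show |x 3| ≤ 1
        linarith
    · intro x hx
      rw [Set.mem_smul_set]
      refine ⟨(2 : ℝ)⁻¹ • x, ?_, by rw [smul_smul]; norm_num⟩
      have c0 := of_mem_cube hx 0
      have c1 := of_mem_cube hx 1
      have c2 := of_mem_cube hx 2
      have c3 := of_mem_cube hx 3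
      rw [body4_iff]
      simp only [PiLp.smul_apply, smul_eq_mul]
      have hh : |(2 : ℝ)⁻¹| = 2⁻¹ := by norm_num
      have d0 : |2⁻¹ * x 0 - 2⁻¹ * x 3| ≤ 2⁻¹ * |x 0| + 2⁻¹ * |x 3| := by
        calc |2⁻¹ * x 0 - 2⁻¹ * x 3| ≤ |2⁻¹ * x 0| + |2⁻¹ * x 3| := abs_sub _ _
          _ = _ := by rw [abs_mul, abs_mul, hh]
      have d1 : |2⁻¹ * x 0 + 4 * (2⁻¹ * x 3)| ≤ 2⁻¹ * |x 0| + 2 * |x 3| := by
        calc |2⁻¹ * x 0 + 4 * (2⁻¹ * x 3)| ≤ |2⁻¹ * x 0| + |4 * (2⁻¹ * x 3)| := abs_add_le _ _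
          _ = _ := by
            rw [abs_mul, abs_mul, abs_mul, hh]
            have : |(4 : ℝ)| = 4 := by norm_num
            rw [this]; ring
      rw [abs_mul, abs_mul, abs_mul, abs_mul, hh]
      refine ⟨?_, ?_, ?_, ?_, ?_, ?_⟩ <;> linarith
    · intro t Z ht hZ h1 h2
      exact lower_4 t Z ht hZ h1 h2
  linarith

/-- For every even `n ≥ 4` the cross-polytope does not maximise the zonoid approximation
constant among origin-symmetric convex bodies of `R^n`. -/
theorem result (n : ℕ) (hn : 4 ≤ n) (he : Even n) :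
    ∃ K : Set (E n), IsSymBody K ∧ lam (crossPolytope n) < lam K := by
  rcases Nat.lt_or_ge n 6 with h | h
  · obtain ⟨r, hr⟩ := he
    have : n = 4 := by omega
    subst this
    exact case_four
  · obtain ⟨b, rfl⟩ : ∃ b, n = 3 + b := ⟨n - 3, by omega⟩
    obtain ⟨r, hr⟩ := he
    exact case_ge_six ⟨r - 2, by omega⟩ (by omega)

end Pool.Agent.Results.MP_99e7cc_gt.EvenDim
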